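import Mathlib

set_option autoImplicit false
open Polynomial Matrix Finset

namespace Pool.Agent.Helper35.BC

section Jacobi

variable {R : Type*} [CommRing R] {n : Type*} [Fintype n] [DecidableEq n]

/-- Jacobi's formula for the derivative of the determinant of a matrix of polynomials -/
theorem derivative_det (M : Matrix n n R[X]) :
    derivative M.det = (M.adjugate * M.map derivative).trace := by
  have h1 : ∀ i : n, (M.adjugate * M.map derivative) i i =
      (M.updateCol i fun k => derivative (M k i)).det := by
    intro i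
    rw [← Matrix.cramer_apply, Matrix.cramer_eq_adjugate_mulVec]
    rfl
  rw [Matrix.trace]
  simp only [Matrix.diag_apply, h1]
  simp only [Matrix.det_apply, derivative_sum, derivative_smul]
  rw [Finset.sum_comm]
  refine Finset.sum_congr rfl fun σ _ => ?_
  rw [← Finset.smul_sum]
  congr 1
  rw [Polynomial.derivative_prod_finset]
  refine Finset.sum_congr rfl fun i _ => ?_
  rw [← Finset.mul_prod_erase univ _ (Finset.mem_univ i), Matrix.updateCol_self, mul_comm]
  congr 1
  refine Finset.prod_congr rfl fun j hj => ?_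
  rw [Matrix.updateCol_ne (Finset.ne_of_mem_erase hj)]

/-- Newton's identities for the powers of a matrix -/
theorem newton (A : Matrix n n R) (k : ℕ) :
    ((k : R) + 1) * A.charpolyRev.coeff (k + 1) =
      -∑ l ∈ range (k + 1), A.charpolyRev.coeff l * (A ^ (k + 1 - l)).trace := by
  set M : Matrix n n R[X] := 1 - (X : R[X]) • A.map C with hM
  set G : ℕ → Matrix n n R := fun k => M.adjugate.map fun p => p.coeff k with hG
  have h1 : M.adjugate - (X : R[X]) • (M.adjugate * A.map C) = A.charpolyRev • 1 := by
    rw [← Matrix.mul_smul, ← mul_one_sub, ← hM]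
    exact Matrix.adjugate_mul _
  have h2 : M.map derivative = -(A.map C) := by
    ext i j
    simp only [hM, Matrix.map_apply, Matrix.sub_apply, Matrix.smul_apply, Matrix.neg_apply,
      Matrix.one_apply, smul_eq_mul, derivative_sub, derivative_mul, derivative_X, derivative_C]
    split_ifs <;> simp
  have h0 : G 0 = A.charpolyRev.coeff 0 • 1 := by
    ext i j
    have h3 := congrArg (fun p : R[X] => p.coeff 0) (congrFun (congrFun h1 i) j)
    simp only [Matrix.sub_apply, Matrix.smul_apply, smul_eq_mul, coeff_sub, coeff_X_mul_zero,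
      sub_zero] at h3
    simp only [hG, Matrix.map_apply, Matrix.smul_apply, smul_eq_mul]
    rw [h3, Matrix.one_apply, Matrix.one_apply]
    split_ifs <;> simp
  have hs : ∀ m, G (m + 1) = A.charpolyRev.coeff (m + 1) • 1 + G m * A := by
    intro m
    ext i j
    have h3 := congrArg (fun p : R[X] => p.coeff (m + 1)) (congrFun (congrFun h1 i) j)
    simp only [Matrix.sub_apply, Matrix.smul_apply, smul_eq_mul, coeff_sub, coeff_X_mul,
      Matrix.mul_apply, Matrix.map_apply, finsetSum_coeff, coeff_mul_C] at h3
    simp only [hG, Matrix.map_apply, Matrix.smul_apply, smul_eq_mul, Matrix.add_apply,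
      Matrix.mul_apply]
    rw [sub_eq_iff_eq_add] at h3
    rw [h3, Matrix.one_apply, Matrix.one_apply]
    split_ifs <;> simp
  have h4 : ∀ m, G m = ∑ l ∈ range (m + 1), A.charpolyRev.coeff l • A ^ (m - l) := by
    intro m
    induction m with
    | zero => simp [h0]
    | succ m ih =>
      rw [hs, ih, Finset.sum_range_succ _ (m + 1), add_comm, Finset.sum_mul]
      congr 1
      · refine Finset.sum_congr rfl fun l hl => ?_
        rw [smul_mul_assoc, ← pow_succ, Nat.succ_sub (Nat.lt_succ_iff.1 (Finset.mem_range.1 hl))]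
      · simp
  have h5 := derivative_det M
  rw [h2] at h5
  have h6 := congrArg (fun p : R[X] => p.coeff k) h5
  simp only [coeff_derivative] at h6
  have h7 : (M.adjugate * -(A.map C)).trace.coeff k = -(G k * A).trace := by
    simp only [Matrix.trace, Matrix.diag_apply, Matrix.mul_apply, finsetSum_coeff,
      Matrix.neg_apply, Matrix.map_apply, hG, mul_neg, coeff_neg, coeff_mul_C,
      Finset.sum_neg_distrib]
  rw [h7, h4, Finset.sum_mul, Matrix.trace_sum] at h6
  rw [mul_comm]
  refine Eq.trans h6 ?_
  congr 1
  refine Finset.sum_congr rfl fun l hl => ?_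
  rw [smul_mul_assoc, ← pow_succ, Matrix.trace_smul, smul_eq_mul,
    Nat.succ_sub (Nat.lt_succ_iff.1 (Finset.mem_range.1 hl))]

end Jacobi

section Compare

variable {R : Type*} [CommRing R] {n : Type*} [Fintype n] [DecidableEq n]

theorem charpolyRev_coeff_zero (A : Matrix n n R) : A.charpolyRev.coeff 0 = 1 := by
  rw [Polynomial.coeff_zero_eq_eval_zero, Matrix.eval_charpolyRev]

theorem charpolyRev_coeff_eq_zero (A : Matrix n n R) {m : ℕ} (h : Fintype.card n < m) :
    A.charpolyRev.coeff m = 0 := by
  rcases subsingleton_or_nontrivial R with h0 | h0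
  · exact Subsingleton.elim _ _
  rw [← Matrix.reverse_charpoly]
  refine Polynomial.coeff_eq_zero_of_natDegree_lt (lt_of_le_of_lt (reverse_natDegree_le _) ?_)
  rwa [Matrix.charpoly_natDegree_eq_dim]

theorem charpolyRev_natDegree_le (A : Matrix n n R) :
    A.charpolyRev.natDegree ≤ Fintype.card n :=
  Polynomial.natDegree_le_iff_coeff_eq_zero.2 fun _ h => charpolyRev_coeff_eq_zero A h

/-- Newton's identities with factorials: the power sums determine `m! e_m` -/
theorem newton_factorial (A : Matrix n n R) (m : ℕ) :
    ((m + 1).factorial : R) * A.charpolyRev.coeff (m + 1) =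
      -∑ l ∈ range (m + 1), (m.descFactorial (m - l) : R) *
        ((l.factorial : R) * A.charpolyRev.coeff l) * (A ^ (m + 1 - l)).trace := by
  have h : (m.factorial : R) * (((m : R) + 1) * A.charpolyRev.coeff (m + 1)) =
      (m.factorial : R) *
        -∑ l ∈ range (m + 1), A.charpolyRev.coeff l * (A ^ (m + 1 - l)).trace := by
    rw [newton A m]
  rw [Nat.factorial_succ]
  push_cast
  rw [show ((m : R) + 1) * (m.factorial : R) * A.charpolyRev.coeff (m + 1) =
    (m.factorial : R) * (((m : R) + 1) * A.charpolyRev.coeff (m + 1)) by ring, h, mul_neg,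
    Finset.mul_sum]
  congr 1
  refine Finset.sum_congr rfl fun l hl => ?_
  have hl' : l ≤ m := Nat.lt_succ_iff.1 (Finset.mem_range.1 hl)
  have h1 : m.factorial = m.descFactorial (m - l) * l.factorial := by
    have h2 := Nat.factorial_mul_descFactorial (Nat.sub_le m l)
    rw [Nat.sub_sub_self hl'] at h2
    rw [← h2, mul_comm]
  rw [h1]
  push_cast
  ring

variable {S L k : Type*} [CommRing S] [CommRing L] [CommRing k] (i : S →+* L) (ρ : S →+* k)
  {n' : Type*} [Fintype n'] [DecidableEq n']

/-- the numbers `m! e_m` of two matrices with the same power sums are the images of the same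
elements -/
theorem exists_common (A : Matrix n n L) (A' : Matrix n' n' k) (a : ℕ → S)
    (h1 : ∀ N, 0 < N → i (a N) = (A ^ N).trace) (h2 : ∀ N, 0 < N → ρ (a N) = (A' ^ N).trace)
    (m : ℕ) :
    ∃ u : S, i u = (m.factorial : L) * A.charpolyRev.coeff m ∧
      ρ u = (m.factorial : k) * A'.charpolyRev.coeff m := by
  induction m using Nat.strong_induction_on with
  | _ m ih =>
    rcases m with _ | m
    · exact ⟨1, by simp [charpolyRev_coeff_zero], by simp [charpolyRev_coeff_zero]⟩
    choose! u hu using ih
    refine ⟨-∑ l ∈ range (m + 1), (m.descFactorial (m - l) : S) * u l * a (m + 1 - l), ?_, ?_⟩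
    · rw [newton_factorial, map_neg, map_sum]
      congr 1
      refine Finset.sum_congr rfl fun l hl => ?_
      have hl' := Finset.mem_range.1 hl
      rw [map_mul, map_mul, map_natCast, (hu l hl').1, h1 _ (by omega)]
    · rw [newton_factorial, map_neg, map_sum]
      congr 1
      refine Finset.sum_congr rfl fun l hl => ?_
      have hl' := Finset.mem_range.1 hl
      rw [map_mul, map_mul, map_natCast, (hu l hl').2, h2 _ (by omega)]

end Compare

section Main

variable {S L k : Type*} [CommRing S] [Field L] [CharZero L] [Field k] {r : ℕ} [CharP k r]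
  {n n' : Type*} [Fintype n] [DecidableEq n] [Fintype n'] [DecidableEq n']

theorem factorial_ne_zero_of_lt {m : ℕ} (hr : r.Prime) (h : m < r) : (m.factorial : k) ≠ 0 := by
  intro h0
  rw [CharP.cast_eq_zero_iff k r, hr.dvd_factorial] at h0
  omega

theorem eval_charpolyRev_eq (A : Matrix n n k) {b : k} (hb : b ≠ 0) :
    (b • (1 : Matrix n n k) - A).det = b ^ Fintype.card n * A.charpolyRev.eval b⁻¹ := by
  have h1 : A.charpolyRev.eval b⁻¹ = (1 - b⁻¹ • A).det := by
    rw [Matrix.charpolyRev, ← coe_evalRingHom, RingHom.map_det]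
    congr 1
    ext i j
    simp only [RingHom.mapMatrix_apply, Matrix.map_apply, Matrix.sub_apply, Matrix.smul_apply,
      Matrix.one_apply, smul_eq_mul, coe_evalRingHom, eval_sub, eval_mul, eval_X, eval_C]
    split_ifs <;> simp
  rw [h1, ← Matrix.det_smul, smul_sub, smul_smul, mul_inv_cancel₀ hb, one_smul]

/-- **Newton's identities modulo `r`**: two matrices whose power sums are the images of the same
elements `a N` of `S` in a field of characteristic 0 and in a field of characteristic `r`, which is
larger than both sizes: the eigenvalues of the first which are images of elements `β` of `S` give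
eigenvalues of the second -/
theorem det_eq_zero (hr : r.Prime) (i : S →+* L) (hi : Function.Injective i) (ρ : S →+* k)
    (A : Matrix n n L) (A' : Matrix n' n' k) (hn : Fintype.card n < r) (hn' : Fintype.card n' < r)
    (a : ℕ → S) (h1 : ∀ N, 0 < N → i (a N) = (A ^ N).trace)
    (h2 : ∀ N, 0 < N → ρ (a N) = (A' ^ N).trace) (β : S) (hβ : ρ β ≠ 0)
    (hA : (i β • (1 : Matrix n n L) - A).det = 0) :
    (ρ β • (1 : Matrix n' n' k) - A').det = 0 := by
  have hβ1 : i β ≠ 0 := by
    intro h0
    rw [← map_zero i] at h0
    exact hβ (by rw [hi h0, map_zero])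
  choose u hu1 hu2 using exists_common i ρ A A' a h1 h2
  set D := Fintype.card n with hD
  have h3 : ∀ m, D < m → m < r → A'.charpolyRev.coeff m = 0 := by
    intro m hm hm2
    have h4 := hu1 m
    rw [charpolyRev_coeff_eq_zero A hm, mul_zero, ← map_zero i] at h4
    have h5 := hu2 m
    rw [hi h4, map_zero] at h5
    exact (mul_eq_zero.1 h5.symm).resolve_left (factorial_ne_zero_of_lt hr hm2)
  have h4 : A'.charpolyRev.natDegree ≤ D := by
    refine Polynomial.natDegree_le_iff_coeff_eq_zero.2 fun m hm => ?_
    rcases lt_or_ge m r with h | h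
    · exact h3 m hm h
    · exact charpolyRev_coeff_eq_zero A' (by omega)
  -- the equation for `β` in `S`
  have h5 : ∑ l ∈ range (D + 1), (D.descFactorial (D - l) : S) * u l * β ^ (D - l) = 0 := by
    apply hi
    rw [map_zero, map_sum]
    rw [eval_charpolyRev_eq A hβ1] at hA
    have h6 := (mul_eq_zero.1 hA).resolve_left (pow_ne_zero _ hβ1)
    rw [Polynomial.eval_eq_sum_range' (Nat.lt_succ_of_le (charpolyRev_natDegree_le A))] at h6
    have h7 := congrArg (fun x => (D.factorial : L) * (i β) ^ D * x) h6
    simp only [mul_zero, Finset.mul_sum] at h7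
    rw [← h7]
    refine Finset.sum_congr rfl fun l hl => ?_
    have hl' : l ≤ D := Nat.lt_succ_iff.1 (Finset.mem_range.1 hl)
    have h8 : D.factorial = D.descFactorial (D - l) * l.factorial := by
      have h2 := Nat.factorial_mul_descFactorial (Nat.sub_le D l)
      rw [Nat.sub_sub_self hl'] at h2
      rw [← h2, mul_comm]
    have h9 : (i β) ^ D * (i β)⁻¹ ^ l = (i β) ^ (D - l) := by
      rw [← pow_sub_mul_pow (i β) hl', mul_assoc, ← mul_pow, mul_inv_cancel₀ hβ1, one_pow, mul_one]
    rw [map_mul, map_mul, map_natCast, hu1, map_pow, h8, ← h9]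
    push_cast
    ring
  have h6 := congrArg ρ h5
  rw [map_zero, map_sum] at h6
  have h7 : (D.factorial : k) * (ρ β) ^ D * A'.charpolyRev.eval (ρ β)⁻¹ = 0 := by
    rw [Polynomial.eval_eq_sum_range' (Nat.lt_succ_of_le h4), Finset.mul_sum, ← h6]
    refine Finset.sum_congr rfl fun l hl => ?_
    have hl' : l ≤ D := Nat.lt_succ_iff.1 (Finset.mem_range.1 hl)
    have h8 : D.factorial = D.descFactorial (D - l) * l.factorial := by
      have h2 := Nat.factorial_mul_descFactorial (Nat.sub_le D l)
      rw [Nat.sub_sub_self hl'] at h2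
      rw [← h2, mul_comm]
    have h9 : (ρ β) ^ D * (ρ β)⁻¹ ^ l = (ρ β) ^ (D - l) := by
      rw [← pow_sub_mul_pow (ρ β) hl', mul_assoc, ← mul_pow, mul_inv_cancel₀ hβ, one_pow, mul_one]
    rw [map_mul, map_mul, map_natCast, hu2, map_pow, h8, ← h9]
    push_cast
    ring
  rw [eval_charpolyRev_eq A' hβ]
  have h8 := (mul_eq_zero.1 h7).resolve_left
    (mul_ne_zero (factorial_ne_zero_of_lt hr hn) (pow_ne_zero _ hβ))
  rw [h8, mul_zero]

/-- the same for an endomorphism of a finite-dimensional space and an eigenvalue -/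
theorem det_eq_zero_of_hasEigenvalue {V : Type*} [AddCommGroup V] [Module L V]
    [FiniteDimensional L V] (hr : r.Prime) (i : S →+* L) (hi : Function.Injective i) (ρ : S →+* k)
    (f : Module.End L V) (A' : Matrix n' n' k) (hn : Module.finrank L V < r)
    (hn' : Fintype.card n' < r) (a : ℕ → S)
    (h1 : ∀ N, 0 < N → i (a N) = LinearMap.trace L V (f ^ N))
    (h2 : ∀ N, 0 < N → ρ (a N) = (A' ^ N).trace) (β : S) (hβ : ρ β ≠ 0)
    (hf : f.HasEigenvalue (i β)) :
    (ρ β • (1 : Matrix n' n' k) - A').det = 0 := by
  set b := Module.finBasis L V with hb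
  refine det_eq_zero hr i hi ρ (LinearMap.toMatrix b b f) A' (by simpa using hn) hn' a ?_ h2 β hβ ?_
  · intro N hN
    rw [h1 N hN, LinearMap.trace_eq_matrix_trace L b, LinearMap.toMatrix_pow]
  · have h3 := (Module.End.hasEigenvalue_iff_isRoot_charpoly f _).1 hf
    rw [← LinearMap.charpoly_toMatrix f b, Polynomial.IsRoot, Matrix.eval_charpoly] at h3
    rw [← h3]
    congr 1
    rw [Matrix.smul_one_eq_diagonal]
    rfl

end Main

end Pool.Agent.Helper35.BC
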