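import Pool.Agent.Helper35.BC.Newton

set_option autoImplicit false

namespace Pool.Agent.Helper35.BC.RC

open Polynomial Module

/-- Newton's identities modulo `r` in the form of the project RC -/
theorem newton {L k S V m : Type} [Field L] [CharZero L] [IsAlgClosed L] [CommRing S] [Field k] (ι : S →+* L)
    (hι : Function.Injective ι) (ρ : S →+* k) {r : ℕ} [Fact r.Prime] [CharP k r] [AddCommGroup V]
    [Module L V] [FiniteDimensional L V] (f : Module.End L V) (hf : finrank L V < r) [Fintype m]
    [DecidableEq m] (M : Matrix m m k) (hM : Fintype.card m < r) (a : ℕ → S)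
    (ha : ∀ i, 0 < i → ι (a i) = LinearMap.trace L V (f ^ i)) (hb : ∀ i, 0 < i → ρ (a i) = (M ^ i).trace)
    {β : S} (hβ : ρ β ≠ 0) (h : f.HasEigenvalue (ι β)) : (Matrix.scalar m (ρ β) - M).det = 0 := by
  have h1 := det_eq_zero_of_hasEigenvalue (Fact.out : r.Prime) ι hι ρ f M hf hM a ha hb β hβ h
  rw [← h1]
  congr 1
  rw [Matrix.smul_one_eq_diagonal]
  rfl

end Pool.Agent.Helper35.BC.RC
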